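import Pool.Agent.U54.ST.Main

/-! # Algebraic relations between limits of complete quotients -/

set_option autoImplicit false

open Matrix Finset Kronecker
open Pool.Agent.N759.CFr

namespace Pool.Agent.U54.ST

variable {ι : Type} [Fintype ι] [DecidableEq ι]

/-- the property for a given pattern of directions -/
def QQ (j : ι → ℕ) (c : (∀ i, Fin (j i + 1)) → ℤ) (α : ι → ℝ) (s : ι → Bool) (ℓ : ℕ) : Prop :=
  ∃ x : ι → ℝ, (∀ i, Irrational (x i) ∧ ∃ p : ℕ, 1 ≤ p ∧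
    ((s i = true ∧ ∀ r < ℓ, pq (α i) (p + r) = pq (x i) r) ∨
      (s i = false ∧ ∀ r < ℓ, pq (α i) (p + r) = pq (x i) (ℓ - 1 - r)))) ∧
    ∑ q, (c q : ℝ) * ∏ i, x i ^ (q i : ℕ) = 0

omit [DecidableEq ι] in
lemma QQ_mono [DecidableEq ι] (j : ι → ℕ) (c : (∀ i, Fin (j i + 1)) → ℤ) (α : ι → ℝ) (s : ι → Bool) {ℓ L : ℕ}
    (h : ℓ ≤ L) (hQ : QQ j c α s L) : QQ j c α s ℓ := by
  obtain ⟨x, hx, hr⟩ := hQ
  refine ⟨x, fun i => ⟨(hx i).1, ?_⟩, hr⟩
  obtain ⟨p, hp, ⟨hs, h1⟩ | ⟨hs, h1⟩⟩ := (hx i).2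
  · exact ⟨p, hp, Or.inl ⟨hs, fun r hr => h1 r (by omega)⟩⟩
  · refine ⟨p + (L - ℓ), by omega, Or.inr ⟨hs, fun r hr => ?_⟩⟩
    rw [show p + (L - ℓ) + r = p + (L - ℓ + r) by ring, h1 _ (by omega)]
    congr 1
    omega

lemma QQ_exists (j : ι → ℕ) (c : (∀ i, Fin (j i + 1)) → ℤ) (α : ι → ℝ)
    (H : ∀ ℓ : ℕ, ∃ x : ι → ℝ, (∀ i, Irrational (x i) ∧ ∃ p : ℕ, 1 ≤ p ∧
      ((∀ r < ℓ, pq (α i) (p + r) = pq (x i) r) ∨
        (∀ r < ℓ, pq (α i) (p + r) = pq (x i) (ℓ - 1 - r)))) ∧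
      ∑ q, (c q : ℝ) * ∏ i, x i ^ (q i : ℕ) = 0) : ∃ s, ∀ ℓ, QQ j c α s ℓ := by
  classical
  by_contra hcon
  push Not at hcon
  choose L hL using hcon
  obtain ⟨x, hx, hr⟩ := H (∑ s, L s)
  choose hx1 p hp hx2 using hx
  let s : ι → Bool := fun i => decide (∀ r < ∑ s, L s, pq (α i) (p i + r) = pq (x i) r)
  refine hL s (QQ_mono j c α s
    (Finset.single_le_sum (f := L) (fun _ _ => Nat.zero_le _) (Finset.mem_univ s))
    ⟨x, fun i => ⟨hx1 i, p i, hp i, ?_⟩, hr⟩)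
  by_cases hd : ∀ r < ∑ s, L s, pq (α i) (p i + r) = pq (x i) r
  · exact Or.inl ⟨decide_eq_true hd, hd⟩
  · refine Or.inr ⟨decide_eq_false hd, ?_⟩
    rcases hx2 i with h | h
    · exact absurd h hd
    · exact h

/-- algebraic relations -/
theorem relation (j : ι → ℕ) (c : (∀ i, Fin (j i + 1)) → ℤ) (hc : c ≠ 0)
    (α : ι → ℝ) (hα : ∀ i, Irrational (α i))
    (g : ι → Matrix (Fin 2) (Fin 2) ℝ) (row : ι → Fin 2)
    (hg : ∀ i, g i (row i) 0 = α i * g i (row i) 1) (hg1 : ∀ i, g i (row i) 1 ≠ 0)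
    (H : ∀ ℓ : ℕ, ∃ x : ι → ℝ, (∀ i, Irrational (x i) ∧ ∃ p : ℕ, 1 ≤ p ∧
      ((∀ r < ℓ, pq (α i) (p + r) = pq (x i) r) ∨
        (∀ r < ℓ, pq (α i) (p + r) = pq (x i) (ℓ - 1 - r)))) ∧
      ∑ q, (c q : ℝ) * ∏ i, x i ^ (q i : ℕ) = 0) :
    SmallValues (tensorSym j g) := by
  classical
  obtain ⟨s, hs⟩ := QQ_exists j c α H
  let e : (∀ i, Fin (j i + 1)) ≃ (∀ i, Fin (j i + 1)) :=
    Equiv.piCongrRight fun i => if s i = true then Fin.revPerm else Equiv.refl _
  let c' : (∀ i, Fin (j i + 1)) → ℤ := fun q =>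
    (∏ i, if s i = true then 1 else (-1) ^ (j i - (q i : ℕ))) * c (e q)
  have hc' : c' ≠ 0 := by
    intro h0
    apply hc
    ext q
    have h1 := congrFun h0 (e.symm q)
    simp only [c', Equiv.apply_symm_apply, Pi.zero_apply, mul_eq_zero] at h1
    rcases h1 with h1 | h1
    · exfalso
      rw [Finset.prod_eq_zero_iff] at h1
      obtain ⟨i, _, hi⟩ := h1
      split_ifs at hi
      · exact one_ne_zero hi
      · exact pow_ne_zero _ (by norm_num) hi
    · exact h1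
  refine main j c' hc' (fun i => if s i = true then 0 else Fin.last (j i)) α hα g row hg hg1
    fun ℓ => ?_
  obtain ⟨x, hx, hr⟩ := hs (ℓ + 1)
  choose hx1 p hp hx2 using hx
  refine ⟨x, x, fun i => if s i = true then p i else p i + (ℓ + 1), fun i => ⟨hx1 i, hx1 i, ?_, ?_, ?_⟩,
    ?_⟩
  · have := hp i
    by_cases h : s i = true
    · simp [h, this]
    · simp only [if_neg h]; omega
  · intro ha r hr'
    by_cases h : s i = true
    · rcases hx2 i with ⟨_, h2⟩ | ⟨h1, _⟩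
      · simp only [if_pos h]
        exact h2 r (by omega)
      · rw [h] at h1; exact absurd h1 (by decide)
    · simp [if_neg h] at ha
  · intro ha
    by_cases h : s i = true
    · simp [if_pos h] at ha
    · rcases hx2 i with ⟨h1, _⟩ | ⟨_, h2⟩
      · exact absurd h1 h
      · simp only [if_neg h]
        refine ⟨by have := hp i; omega, fun r hr' => ?_⟩
        have h3 := h2 (ℓ - r) (by omega)
        rw [show p i + (ℓ + 1) - 1 - r = p i + (ℓ - r) by omega, h3]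
        congr 1
        omega
  · rw [tensorSym_mulVec]
    unfold sval tval
    rw [← hr, ← Equiv.sum_comp e (fun q => (c q : ℝ) * ∏ i, x i ^ (q i : ℕ))]
    refine Finset.sum_congr rfl fun q _ => ?_
    simp only [c']
    push_cast
    have h0 : ∀ A B D : ℝ, A * (B * D) = D * (B * A) := fun A B D => by ring
    rw [h0, ← Finset.prod_mul_distrib]
    congr 1
    refine Finset.prod_congr rfl fun i _ => ?_
    simp only [e, Equiv.piCongrRight_apply, Pi.map_apply]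
    by_cases h : s i = true
    · rw [if_pos h, if_pos h, if_pos h, symPow_zero (j i) _ 0 (q i) rfl]
      simp only [Fin.revPerm_apply, Fin.val_rev, Matrix.of_apply, Matrix.cons_val', Matrix.cons_val_zero,
        Matrix.cons_val_one, Matrix.cons_val_fin_one, one_pow, mul_one, one_mul]
      congr 1
      omega
    · rw [if_neg h, if_neg h, if_neg h, symPow_last (j i) _ (Fin.last (j i)) (q i) rfl]
      simp only [Matrix.of_apply, Matrix.cons_val', Matrix.cons_val_zero, Matrix.cons_val_one,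
        Matrix.cons_val_fin_one, Equiv.refl_apply]
      rw [← mul_assoc, ← mul_pow]
      norm_num

end Pool.Agent.U54.ST
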