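import Pool.Agent.U54.ST.Main

/-! # Two factors and one factor -/

set_option autoImplicit false

open Matrix Finset Kronecker
open Pool.Agent.N759.CFr

namespace Pool.Agent.U54.ST

/-- two factors -/
theorem pair (j k : ℕ) (c : Fin (j + 1) × Fin (k + 1) → ℤ) (hc : c ≠ 0)
    (a : Fin (j + 1)) (b : Fin (k + 1)) {α β : ℝ} (hα : Irrational α) (hβ : Irrational β)
    (g h : Matrix (Fin 2) (Fin 2) ℝ) (i₀ j₀ : Fin 2)
    (hg : g i₀ 0 = α * g i₀ 1) (hg1 : g i₀ 1 ≠ 0) (hh : h j₀ 0 = β * h j₀ 1) (hh1 : h j₀ 1 ≠ 0)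
    (H : ∀ ℓ : ℕ, ∃ (x y x' y' : ℝ) (p p' : ℕ), (Irrational x ∧ Irrational y ∧ 1 ≤ p ∧
        ((a : ℕ) < j → ∀ r < ℓ, pq α (p + r) = pq x r) ∧
        (0 < (a : ℕ) → ℓ < p ∧ ∀ r < ℓ, pq α (p - 1 - r) = pq y r)) ∧
      (Irrational x' ∧ Irrational y' ∧ 1 ≤ p' ∧
        ((b : ℕ) < k → ∀ r < ℓ, pq β (p' + r) = pq x' r) ∧
        (0 < (b : ℕ) → ℓ < p' ∧ ∀ r < ℓ, pq β (p' - 1 - r) = pq y' r)) ∧
      ((symPow j !![x, 1; -1, y] ⊗ₖ symPow k !![x', 1; -1, y']) *ᵥ fun q => (c q : ℝ)) (a, b) = 0) :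
    SmallValues (symPow j g ⊗ₖ symPow k h) := by
  let J : Fin 2 → ℕ := ![j, k]
  let e : (∀ i : Fin 2, Fin (J i + 1)) ≃ Fin (j + 1) × Fin (k + 1) :=
    piFinTwoEquiv fun i : Fin 2 => Fin (J i + 1)
  have hconv : ∀ (A B : Matrix (Fin 2) (Fin 2) ℝ) (q r : ∀ i : Fin 2, Fin (J i + 1)),
      tensorSym J (![A, B]) q r = (symPow j A ⊗ₖ symPow k B) (e q) (e r) := by
    intro A B q r
    unfold tensorSym
    rw [Matrix.of_apply, Fin.prod_univ_two, Matrix.kroneckerMap_apply]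
    rfl
  refine small_reindex e (tensorSym J (![g, h])) _ (hconv g h) ?_
  have hc' : (fun q => c (e q) : (∀ i : Fin 2, Fin (J i + 1)) → ℤ) ≠ 0 := by
    intro h0
    apply hc
    ext q
    have := congrFun h0 (e.symm q)
    simpa using this
  refine main J (fun q => c (e q)) hc' (e.symm (a, b)) (![α, β]) ?_ (![g, h]) (![i₀, j₀]) ?_ ?_ ?_
  · intro i; fin_cases i
    · exact hα
    · exact hβ
  · intro i; fin_cases i
    · exact hg
    · exact hh
  · intro i; fin_cases i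
    · exact hg1
    · exact hh1
  · intro ℓ
    obtain ⟨x, y, x', y', p, p', h1, h2, h3⟩ := H ℓ
    refine ⟨![x, x'], ![y, y'], ![p, p'], ?_, ?_⟩
    · intro i; fin_cases i
      · exact h1
      · exact h2
    · have hM : (fun i : Fin 2 => (!![(![x, x'] : Fin 2 → ℝ) i, 1; -1, (![y, y'] : Fin 2 → ℝ) i] :
          Matrix (Fin 2) (Fin 2) ℝ)) = ![!![x, 1; -1, y], !![x', 1; -1, y']] := by
        funext i
        fin_cases i <;> rfl
      rw [hM]
      rw [← h3]
      simp only [mulVec, dotProduct]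
      rw [← Equiv.sum_comp e]
      refine Finset.sum_congr rfl fun q _ => ?_
      rw [hconv, Equiv.apply_symm_apply]

/-- one factor -/
theorem single (j : ℕ) (c : Fin (j + 1) → ℤ) (hc : c ≠ 0) (a : Fin (j + 1)) {α : ℝ}
    (hα : Irrational α) (g : Matrix (Fin 2) (Fin 2) ℝ) (i₀ : Fin 2)
    (hg : g i₀ 0 = α * g i₀ 1) (hg1 : g i₀ 1 ≠ 0)
    (H : ∀ ℓ : ℕ, ∃ (x y : ℝ) (p : ℕ), (Irrational x ∧ Irrational y ∧ 1 ≤ p ∧
        ((a : ℕ) < j → ∀ r < ℓ, pq α (p + r) = pq x r) ∧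
        (0 < (a : ℕ) → ℓ < p ∧ ∀ r < ℓ, pq α (p - 1 - r) = pq y r)) ∧
      (symPow j !![x, 1; -1, y] *ᵥ fun q => (c q : ℝ)) a = 0) :
    SmallValues (symPow j g) := by
  let e : (Unit → Fin (j + 1)) ≃ Fin (j + 1) := Equiv.funUnique Unit (Fin (j + 1))
  have hconv : ∀ (A : Matrix (Fin 2) (Fin 2) ℝ) (q r : Unit → Fin (j + 1)),
      tensorSym (fun _ : Unit => j) (fun _ => A) q r = symPow j A (e q) (e r) := by
    intro A q r
    unfold tensorSym
    rw [Matrix.of_apply, Fintype.prod_unique]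
    rfl
  refine small_reindex e (tensorSym (fun _ : Unit => j) (fun _ => g)) _ (hconv g) ?_
  have hc' : (fun q => c (e q) : (Unit → Fin (j + 1)) → ℤ) ≠ 0 := by
    intro h0
    apply hc
    ext q
    have := congrFun h0 (e.symm q)
    simpa using this
  refine main (fun _ : Unit => j) (fun q => c (e q)) hc' (e.symm a) (fun _ => α) (fun _ => hα)
    (fun _ => g) (fun _ => i₀) (fun _ => hg) (fun _ => hg1) ?_
  intro ℓ
  obtain ⟨x, y, p, h1, h3⟩ := H ℓ
  refine ⟨fun _ => x, fun _ => y, fun _ => p, fun _ => h1, ?_⟩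
  rw [← h3]
  simp only [mulVec, dotProduct]
  rw [← Equiv.sum_comp e]
  refine Finset.sum_congr rfl fun q _ => ?_
  rw [hconv, Equiv.apply_symm_apply]

/-- common or mirrored blocks -/
theorem blocks (j k : ℕ) (hj : 0 < j) (hk : 0 < k) {α β : ℝ} (hα : Irrational α)
    (hβ : Irrational β)
    (hc : ∀ ℓ : ℕ, ∃ i i' : ℕ, (∀ r < ℓ, pq α (i + r) = pq β (i' + r)) ∨
      (∀ r < ℓ, pq α (i + r) = pq β (i' + (ℓ - 1 - r))))
    (g h : Matrix (Fin 2) (Fin 2) ℝ) (i₀ j₀ : Fin 2)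
    (hg : g i₀ 0 = α * g i₀ 1) (hg1 : g i₀ 1 ≠ 0) (hh : h j₀ 0 = β * h j₀ 1) (hh1 : h j₀ 1 ≠ 0) :
    SmallValues (symPow j g ⊗ₖ symPow k h) := by
  classical
  have hdich : (∀ ℓ : ℕ, ∃ i i' : ℕ, ∀ r < ℓ, pq α (i + r) = pq β (i' + r)) ∨
      (∀ ℓ : ℕ, ∃ i i' : ℕ, ∀ r < ℓ, pq α (i + r) = pq β (i' + (ℓ - 1 - r))) := by
    by_contra hcon
    push Not at hcon
    obtain ⟨⟨ℓ₁, h1⟩, ⟨ℓ₂, h2⟩⟩ := hcon
    obtain ⟨i, i', h3 | h3⟩ := hc (ℓ₁ + ℓ₂)
    · obtain ⟨r, hr, hr2⟩ := h1 i i'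
      exact hr2 (h3 r (by omega))
    · obtain ⟨r, hr, hr2⟩ := h2 i (i' + ℓ₁)
      apply hr2
      rw [h3 r (by omega)]
      congr 1
      omega
  let z : Fin (j + 1) := ⟨0, by omega⟩
  let o : Fin (j + 1) := ⟨1, by omega⟩
  let z' : Fin (k + 1) := ⟨0, by omega⟩
  let o' : Fin (k + 1) := ⟨1, by omega⟩
  have hzo : z ≠ o := by intro h; simp [z, o] at h
  have hzo' : z' ≠ o' := by intro h; simp [z', o'] at h
  rcases hdich with hd | hd
  · -- direct blocks
    let c : Fin (j + 1) × Fin (k + 1) → ℤ := fun q =>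
      (if q = (z, o') then 1 else 0) - (if q = (o, z') then 1 else 0)
    have hcne : c ≠ 0 := by
      intro h0
      have h1 := congrFun h0 (z, o')
      simp [c, hzo] at h1
    refine pair j k c hcne z z' hα hβ g h i₀ j₀ hg hg1 hh hh1 fun ℓ => ?_
    obtain ⟨i, i', hii⟩ := hd (ℓ + 1)
    refine ⟨cq α (i + 1), cq α (i + 1), cq α (i + 1), cq α (i + 1), i + 1, i' + 1,
      ⟨irr_cq hα _, irr_cq hα _, by omega, fun _ r hr => by rw [pq_add], fun h => absurd h (by simp [z])⟩,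
      ⟨irr_cq hα _, irr_cq hα _, by omega, fun _ r hr => ?_, fun h => absurd h (by simp [z'])⟩, ?_⟩
    · have h1 := hii (r + 1) (by omega)
      rw [← pq_add, show i + 1 + r = i + (r + 1) by ring, h1]
      congr 1
      ring
    · simp only [mulVec, dotProduct, kroneckerMap_apply]
      have hz0 : ∀ q, symPow j !![cq α (i + 1), 1; -1, cq α (i + 1)] z q
          = cq α (i + 1) ^ (j - (q : ℕ)) := by
        intro q; rw [symPow_zero j _ z q rfl]; simp
      have hz0' : ∀ q, symPow k !![cq α (i + 1), 1; -1, cq α (i + 1)] z' q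
          = cq α (i + 1) ^ (k - (q : ℕ)) := by
        intro q; rw [symPow_zero k _ z' q rfl]; simp
      simp only [hz0, hz0', c]
      push_cast
      simp only [mul_sub, mul_ite, mul_one, mul_zero, Finset.sum_sub_distrib, Finset.sum_ite_eq',
        Finset.mem_univ, if_true]
      simp only [z, o, z', o', Nat.sub_zero]
      rw [← pow_add, ← pow_add, show j + (k - 1) = j - 1 + k by omega, sub_self]
  · -- mirrored blocks
    let l' : Fin (k + 1) := ⟨k, by omega⟩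
    let c : Fin (j + 1) × Fin (k + 1) → ℤ := fun q =>
      (if q = (z, z') then 1 else 0) + (if q = (o, o') then 1 else 0)
    have hcne : c ≠ 0 := by
      intro h0
      have h1 := congrFun h0 (z, z')
      simp [c, hzo] at h1
    refine pair j k c hcne z l' hα hβ g h i₀ j₀ hg hg1 hh hh1 fun ℓ => ?_
    obtain ⟨i, i', hii⟩ := hd (ℓ + 2)
    refine ⟨cq α (i + 1), cq α (i + 1), cq α (i + 1), cq α (i + 1), i + 1, i' + ℓ + 1,
      ⟨irr_cq hα _, irr_cq hα _, by omega, fun _ r hr => by rw [pq_add], fun h => absurd h (by simp [z])⟩,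
      ⟨irr_cq hα _, irr_cq hα _, by omega, fun h => absurd h (by simp [l']), fun _ => ⟨by omega, fun r hr => ?_⟩⟩, ?_⟩
    · have h1 := hii (r + 1) (by omega)
      rw [← pq_add, show i + 1 + r = i + (r + 1) by ring, h1]
      congr 1
      omega
    · simp only [mulVec, dotProduct, kroneckerMap_apply]
      have hz0 : ∀ q, symPow j !![cq α (i + 1), 1; -1, cq α (i + 1)] z q
          = cq α (i + 1) ^ (j - (q : ℕ)) := by
        intro q; rw [symPow_zero j _ z q rfl]; simp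
      have hz0' : ∀ q, symPow k !![cq α (i + 1), 1; -1, cq α (i + 1)] l' q
          = (-1) ^ (k - (q : ℕ)) * cq α (i + 1) ^ (q : ℕ) := by
        intro q; rw [symPow_last k _ l' q rfl]; simp
      simp only [hz0, hz0', c]
      push_cast
      simp only [mul_add, mul_ite, mul_one, mul_zero, Finset.sum_add_distrib, Finset.sum_ite_eq',
        Finset.mem_univ, if_true]
      simp only [z, o, z', o', Nat.sub_zero, pow_zero, mul_one, pow_one]
      obtain ⟨j', rfl⟩ := Nat.exists_eq_add_of_le' hj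
      obtain ⟨k', rfl⟩ := Nat.exists_eq_add_of_le' hk
      simp only [Nat.add_sub_cancel, pow_succ]
      ring

/-- algebraic limit points -/
theorem algebraic (j : ℕ) {α x : ℝ} (hα : Irrational α) (hx : Irrational x)
    (f : Polynomial ℤ) (hf : f ≠ 0) (hdeg : f.natDegree ≤ j)
    (hfx : Polynomial.aeval x f = 0)
    (hocc : ∀ ℓ : ℕ, ∃ p : ℕ, 1 ≤ p ∧ ((∀ r < ℓ, pq α (p + r) = pq x r) ∨
      (∀ r < ℓ, pq α (p + r) = pq x (ℓ - 1 - r))))
    (g : Matrix (Fin 2) (Fin 2) ℝ) (i₀ : Fin 2)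
    (hg : g i₀ 0 = α * g i₀ 1) (hg1 : g i₀ 1 ≠ 0) :
    SmallValues (symPow j g) := by
  classical
  have hdich : (∀ ℓ : ℕ, ∃ p : ℕ, 1 ≤ p ∧ ∀ r < ℓ, pq α (p + r) = pq x r) ∨
      (∀ ℓ : ℕ, ∃ p : ℕ, 1 ≤ p ∧ ∀ r < ℓ, pq α (p + r) = pq x (ℓ - 1 - r)) := by
    by_contra hcon
    push Not at hcon
    obtain ⟨⟨ℓ₁, h1⟩, ⟨ℓ₂, h2⟩⟩ := hcon
    obtain ⟨p, hp, h3 | h3⟩ := hocc (ℓ₁ + ℓ₂)
    · obtain ⟨r, hr, hr2⟩ := h1 p hp
      exact hr2 (h3 r (by omega))
    · obtain ⟨r, hr, hr2⟩ := h2 (p + ℓ₁) (by omega)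
      apply hr2
      rw [show p + ℓ₁ + r = p + (ℓ₁ + r) by ring, h3 (ℓ₁ + r) (by omega)]
      congr 1
      omega
  have hsum : ∑ q ∈ Finset.range (j + 1), (f.coeff q : ℝ) * x ^ q = 0 := by
    rw [Polynomial.aeval_eq_sum_range' (by omega : f.natDegree < j + 1)] at hfx
    rw [← hfx]
    refine Finset.sum_congr rfl fun q _ => ?_
    simp
  rcases hdich with hd | hd
  · let z : Fin (j + 1) := ⟨0, by omega⟩
    let c : Fin (j + 1) → ℤ := fun q => f.coeff (j - (q : ℕ))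
    have hcne : c ≠ 0 := by
      intro h0
      apply hf
      ext n
      by_cases hn : n ≤ j
      · have h1 := congrFun h0 ⟨j - n, by omega⟩
        simp only [c, Pi.zero_apply] at h1
        rw [show j - (j - n) = n by omega] at h1
        simpa using h1
      · simp [Polynomial.coeff_eq_zero_of_natDegree_lt (show f.natDegree < n by omega)]
    refine single j c hcne z hα g i₀ hg hg1 fun ℓ => ?_
    obtain ⟨p, hp, h1⟩ := hd ℓ
    refine ⟨x, x, p, ⟨hx, hx, hp, fun _ => h1, fun h => absurd h (by simp [z])⟩, ?_⟩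
    simp only [mulVec, dotProduct]
    have hz0 : ∀ q : Fin (j + 1), symPow j !![x, 1; -1, x] z q = x ^ (j - (q : ℕ)) := by
      intro q; rw [symPow_zero j _ z q rfl]; simp
    simp only [hz0, c]
    rw [Fin.sum_univ_eq_sum_range (fun q => x ^ (j - q) * (f.coeff (j - q) : ℝ)) (j + 1)]
    rw [← hsum, ← Finset.sum_range_reflect]
    refine Finset.sum_congr rfl fun q hq => ?_
    rw [Finset.mem_range] at hq
    rw [show j - (j + 1 - 1 - q) = q by omega, mul_comm]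
  · let l : Fin (j + 1) := ⟨j, by omega⟩
    let c : Fin (j + 1) → ℤ := fun q => (-1) ^ (j - (q : ℕ)) * f.coeff q
    have hcne : c ≠ 0 := by
      intro h0
      apply hf
      ext n
      by_cases hn : n ≤ j
      · have h1 := congrFun h0 ⟨n, by omega⟩
        simp only [c, Pi.zero_apply, mul_eq_zero] at h1
        rcases h1 with h1 | h1
        · exact absurd h1 (pow_ne_zero _ (by norm_num))
        · simpa using h1
      · simp [Polynomial.coeff_eq_zero_of_natDegree_lt (show f.natDegree < n by omega)]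
    refine single j c hcne l hα g i₀ hg hg1 fun ℓ => ?_
    obtain ⟨p, hp, h1⟩ := hd (ℓ + 1)
    refine ⟨x, x, p + (ℓ + 1), ⟨hx, hx, by omega, fun h => absurd h (by simp [l]),
      fun _ => ⟨by omega, fun r hr => ?_⟩⟩, ?_⟩
    · have h2 := h1 (ℓ - r) (by omega)
      rw [show p + (ℓ + 1) - 1 - r = p + (ℓ - r) by omega, h2]
      congr 1
      omega
    · simp only [mulVec, dotProduct]
      have hz0 : ∀ q : Fin (j + 1), symPow j !![x, 1; -1, x] l q
          = (-1) ^ (j - (q : ℕ)) * x ^ (q : ℕ) := by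
        intro q; rw [symPow_last j _ l q rfl]; simp
      simp only [hz0, c]
      push_cast
      rw [Fin.sum_univ_eq_sum_range (fun q => (-1 : ℝ) ^ (j - q) * x ^ q
        * ((-1) ^ (j - q) * (f.coeff q : ℝ))) (j + 1)]
      rw [← hsum]
      refine Finset.sum_congr rfl fun q hq => ?_
      have h3 : (-1 : ℝ) ^ (j - q) * (-1) ^ (j - q) = 1 := by
        rw [← mul_pow]; norm_num
      calc (-1 : ℝ) ^ (j - q) * x ^ q * ((-1) ^ (j - q) * (f.coeff q : ℝ))
          = ((-1 : ℝ) ^ (j - q) * (-1) ^ (j - q)) * (f.coeff q * x ^ q) := by ring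
        _ = _ := by rw [h3, one_mul]

end Pool.Agent.U54.ST
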