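import Pool.Agent.U54.ST.Sym

/-! # Tensor products of symmetric powers -/

set_option autoImplicit false

open Matrix Finset

namespace Pool.Agent.U54.ST

variable {ι : Type} [Fintype ι] [DecidableEq ι]

section ring

variable {R : Type*} [CommRing R]

/-- the `a`-th coordinate of `(⊗ M_i) c` -/
def tval {j : ι → ℕ} (M : ∀ i, Matrix (Fin (j i + 1)) (Fin (j i + 1)) R)
    (c : (∀ i, Fin (j i + 1)) → R) (a : ∀ i, Fin (j i + 1)) : R :=
  ∑ q, (∏ i, M i (a i) (q i)) * c q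

lemma tval_mul {j : ι → ℕ} (A B : ∀ i, Matrix (Fin (j i + 1)) (Fin (j i + 1)) R)
    (c : (∀ i, Fin (j i + 1)) → R) (a : ∀ i, Fin (j i + 1)) :
    tval A (tval B c) a = tval (fun i => A i * B i) c a := by
  unfold tval
  simp only [Finset.mul_sum]
  rw [Finset.sum_comm]
  refine Finset.sum_congr rfl fun q _ => ?_
  have h1 : ∏ i, (A i * B i) (a i) (q i)
      = ∑ p : (∀ i, Fin (j i + 1)), ∏ i, (A i (a i) (p i) * B i (p i) (q i)) := by
    simp only [Matrix.mul_apply]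
    rw [Finset.prod_univ_sum, Fintype.piFinset_univ]
  rw [h1, Finset.sum_mul]
  refine Finset.sum_congr rfl fun p _ => ?_
  rw [Finset.prod_mul_distrib]
  ring

lemma tval_scalar {j : ι → ℕ} (A : ∀ i, Matrix (Fin (j i + 1)) (Fin (j i + 1)) R) (s : ι → R)
    (hA : ∀ i a q, A i a q = if a = q then s i else 0) (c : (∀ i, Fin (j i + 1)) → R)
    (a : ∀ i, Fin (j i + 1)) : tval A c a = (∏ i, s i) * c a := by
  unfold tval
  rw [Finset.sum_eq_single a]
  · congr 1
    exact Finset.prod_congr rfl fun i _ => by rw [hA, if_pos rfl]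
  · intro q _ hq
    obtain ⟨i, hi⟩ : ∃ i, a i ≠ q i := by
      by_contra hcon
      push Not at hcon
      exact hq (funext fun i => (hcon i).symm)
    rw [Finset.prod_eq_zero (Finset.mem_univ i), zero_mul]
    rw [hA, if_neg hi]
  · intro h; exact absurd (Finset.mem_univ a) h

end ring

/-- the coordinates of `(⊗ Sym^{j_i} M_i) c` -/
noncomputable def sval (j : ι → ℕ) (c : (∀ i, Fin (j i + 1)) → ℝ)
    (M : ι → Matrix (Fin 2) (Fin 2) ℝ) (a : ∀ i, Fin (j i + 1)) : ℝ :=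
  tval (fun i => symPow (j i) (M i)) c a

/-- the weights of the coordinates -/
def wt (j : ι → ℕ) (V : ι → Fin 2 → ℝ) (a : ∀ i, Fin (j i + 1)) : ℝ :=
  ∏ i, (V i 0 ^ (j i - (a i : ℕ)) * V i 1 ^ (a i : ℕ))

lemma sval_row (j : ι → ℕ) (c : (∀ i, Fin (j i + 1)) → ℝ) (V : ι → Fin 2 → ℝ)
    (M : ι → Matrix (Fin 2) (Fin 2) ℝ) (a : ∀ i, Fin (j i + 1)) :
    sval j c (fun i => !![V i 0, 0; 0, V i 1] * M i) a = wt j V a * sval j c M a := by
  unfold sval tval wt
  rw [Finset.mul_sum]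
  refine Finset.sum_congr rfl fun q _ => ?_
  simp only [symPow_row]
  rw [Finset.prod_mul_distrib]
  ring

lemma wt_nonneg (j : ι → ℕ) (V : ι → Fin 2 → ℝ) (hV : ∀ i r, 0 < V i r) (a : ∀ i, Fin (j i + 1)) :
    0 ≤ wt j V a := by
  unfold wt
  exact Finset.prod_nonneg fun i _ => by have := hV i 0; have := hV i 1; positivity

/-- the exponents -/
def expo (j : ι → ℕ) (i : ι) : ℕ := ∑ a : (∀ i, Fin (j i + 1)), (a i : ℕ)

lemma expo_rev (j : ι → ℕ) (i : ι) : ∑ a : (∀ i, Fin (j i + 1)), (j i - (a i : ℕ)) = expo j i := by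
  unfold expo
  let e : (∀ i, Fin (j i + 1)) ≃ (∀ i, Fin (j i + 1)) := Equiv.piCongrRight fun i => Fin.revPerm
  rw [← Equiv.sum_comp e]
  refine Finset.sum_congr rfl fun a _ => ?_
  simp only [e, Equiv.piCongrRight_apply, Pi.map_apply, Fin.revPerm_apply, Fin.val_rev]
  omega

lemma prod_wt (j : ι → ℕ) (V : ι → Fin 2 → ℝ) :
    ∏ a, wt j V a = ∏ i, (V i 0 * V i 1) ^ expo j i := by
  unfold wt
  rw [Finset.prod_comm]
  refine Finset.prod_congr rfl fun i _ => ?_
  rw [Finset.prod_mul_distrib, Finset.prod_pow_eq_pow_sum, Finset.prod_pow_eq_pow_sum, expo_rev,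
    mul_pow]
  rfl

lemma continuous_sval (j : ι → ℕ) (c : (∀ i, Fin (j i + 1)) → ℝ) (a : ∀ i, Fin (j i + 1)) :
    Continuous fun m : ι → Fin 2 → Fin 2 → ℝ => sval j c (fun i => Matrix.of (m i)) a := by
  unfold sval tval
  refine continuous_finsetSum _ fun q _ => Continuous.mul ?_ continuous_const
  exact continuous_finsetProd _ fun i _ =>
    continuous_symPow (j i) (a i) (q i) (fun m : ι → Fin 2 → Fin 2 → ℝ => m i) (continuous_apply i)

lemma mem_ball {m : ι → Fin 2 → Fin 2 → ℝ} {r : ℝ} (hr : 0 ≤ r) (h : ∀ i s t, |m i s t| ≤ r) :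
    m ∈ Metric.closedBall (0 : ι → Fin 2 → Fin 2 → ℝ) r := by
  rw [mem_closedBall_zero_iff, pi_norm_le_iff_of_nonneg hr]
  intro i
  rw [pi_norm_le_iff_of_nonneg hr]
  intro s
  rw [pi_norm_le_iff_of_nonneg hr]
  intro t
  exact h i s t

lemma exists_bound (j : ι → ℕ) (c : (∀ i, Fin (j i + 1)) → ℝ) :
    ∃ K : ℝ, 1 ≤ K ∧ ∀ m : ι → Fin 2 → Fin 2 → ℝ, (∀ i s t, |m i s t| ≤ 2) →
      ∀ a, |sval j c (fun i => Matrix.of (m i)) a| ≤ K := by
  have h1 : ∀ a, ∃ K : ℝ, 1 ≤ K ∧ ∀ m : ι → Fin 2 → Fin 2 → ℝ, (∀ i s t, |m i s t| ≤ 2) →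
      |sval j c (fun i => Matrix.of (m i)) a| ≤ K := by
    intro a
    have hb := (isCompact_closedBall (0 : ι → Fin 2 → Fin 2 → ℝ) 2).exists_bound_of_continuousOn
      (continuous_sval j c a).continuousOn
    obtain ⟨K, hK⟩ := hb
    exact ⟨max 1 K, le_max_left _ _, fun m hm =>
      (hK m (mem_ball (by norm_num) hm)).trans (le_max_right _ _)⟩
  choose K hK1 hK using h1
  refine ⟨1 + ∑ a, K a, ?_, fun m hm a => (hK a m hm).trans ?_⟩
  · have : 0 ≤ ∑ a, K a := Finset.sum_nonneg fun a _ => by linarith [hK1 a]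
    linarith
  · have := Finset.single_le_sum (f := K) (fun a _ => by linarith [hK1 a]) (Finset.mem_univ a)
    linarith

lemma exists_delta (j : ι → ℕ) (c : (∀ i, Fin (j i + 1)) → ℝ) (a : ∀ i, Fin (j i + 1)) (ε : ℝ)
    (hε : 0 < ε) :
    ∃ δ : ℝ, 0 < δ ∧ δ ≤ 1 ∧ ∀ m n : ι → Fin 2 → Fin 2 → ℝ, (∀ i s t, |m i s t| ≤ 2) →
      (∀ i s t, |n i s t| ≤ 2) → (∀ i s t, |n i s t - m i s t| ≤ δ) →
      |sval j c (fun i => Matrix.of (n i)) a - sval j c (fun i => Matrix.of (m i)) a| ≤ ε := by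
  have hu := (isCompact_closedBall (0 : ι → Fin 2 → Fin 2 → ℝ) 2).uniformContinuousOn_of_continuous
      (continuous_sval j c a).continuousOn
  rw [Metric.uniformContinuousOn_iff] at hu
  obtain ⟨δ, hδ, h⟩ := hu ε hε
  refine ⟨min 1 (δ / 2), by positivity, min_le_left _ _, fun m n hm hn hmn => ?_⟩
  have h2 := h n (mem_ball (by norm_num) hn) m (mem_ball (by norm_num) hm) ?_
  · rw [Real.dist_eq] at h2
    exact h2.le
  · refine lt_of_le_of_lt ?_ (half_lt_self hδ)
    have h3 : (0 : ℝ) ≤ δ / 2 := by positivity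
    rw [dist_pi_le_iff h3]
    intro i
    rw [dist_pi_le_iff h3]
    intro s
    rw [dist_pi_le_iff h3]
    intro t
    rw [Real.dist_eq]
    exact (hmn i s t).trans (min_le_right _ _)

/-- the abstract estimate -/
lemma abstract (j : ι → ℕ) (c : (∀ i, Fin (j i + 1)) → ℝ) (a : ∀ i, Fin (j i + 1)) (M₀ : ι → ℝ)
    (ε : ℝ) (hε : 0 < ε) :
    ∃ δ : ℝ, 0 < δ ∧ ∀ (V : ι → Fin 2 → ℝ) (M N : ι → Matrix (Fin 2) (Fin 2) ℝ),
      (∀ i r, 0 < V i r) → (∀ i, V i 0 * V i 1 ≤ M₀ i) → (∀ i r s, |M i r s| ≤ V i r) →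
      (∀ i r s, |N i r s - M i r s| ≤ δ * V i r) → sval j c N a = 0 →
      |∏ b, sval j c M b| < ε := by
  obtain ⟨K, hK1, hK⟩ := exists_bound j c
  set W : ℝ := ∏ i, (|M₀ i|) ^ expo j i with hW
  have hW0 : 0 ≤ W := Finset.prod_nonneg fun i _ => by positivity
  set D : ℕ := Fintype.card (∀ i, Fin (j i + 1)) with hD
  set ε' : ℝ := ε / (2 * (W + 1) * K ^ D) with hε'
  have hKD : 0 < K ^ D := by positivity
  have hε'0 : 0 < ε' := by positivity
  obtain ⟨δ, hδ, hδ1, hd⟩ := exists_delta j c a ε' hε'0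
  refine ⟨δ, hδ, fun V M N hV hVM hM hN h0 => ?_⟩
  -- normalisation
  let m : ι → Fin 2 → Fin 2 → ℝ := fun i r s => M i r s / V i r
  let n : ι → Fin 2 → Fin 2 → ℝ := fun i r s => N i r s / V i r
  have hMm : M = fun i => !![V i 0, 0; 0, V i 1] * Matrix.of (m i) := by
    ext i r s
    have h1 := (hV i 0).ne'
    have h2 := (hV i 1).ne'
    fin_cases r
    · simp [Matrix.mul_apply, Fin.sum_univ_two, m, mul_div_cancel₀, h1]
    · simp [Matrix.mul_apply, Fin.sum_univ_two, m, mul_div_cancel₀, h2]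
  have hNn : N = fun i => !![V i 0, 0; 0, V i 1] * Matrix.of (n i) := by
    ext i r s
    have h1 := (hV i 0).ne'
    have h2 := (hV i 1).ne'
    fin_cases r
    · simp [Matrix.mul_apply, Fin.sum_univ_two, n, mul_div_cancel₀, h1]
    · simp [Matrix.mul_apply, Fin.sum_univ_two, n, mul_div_cancel₀, h2]
  have hm1 : ∀ i r s, |m i r s| ≤ 1 := by
    intro i r s
    simp only [m]
    rw [abs_div, abs_of_pos (hV i r), div_le_one (hV i r)]
    exact hM i r s
  have hmn : ∀ i r s, |n i r s - m i r s| ≤ δ := by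
    intro i r s
    simp only [m, n]
    rw [← sub_div, abs_div, abs_of_pos (hV i r), div_le_iff₀ (hV i r)]
    exact hN i r s
  have hm2 : ∀ i r s, |m i r s| ≤ 2 := fun i r s => (hm1 i r s).trans (by norm_num)
  have hn2 : ∀ i r s, |n i r s| ≤ 2 := by
    intro i r s
    have h1 := abs_sub_abs_le_abs_sub (n i r s) (m i r s)
    have h2 := hmn i r s
    have h3 := hm1 i r s
    linarith
  have hn0 : sval j c (fun i => Matrix.of (n i)) a = 0 := by
    rw [hNn, sval_row] at h0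
    rcases mul_eq_zero.1 h0 with h | h
    · exfalso
      have : 0 < wt j V a := Finset.prod_pos fun i _ => by
        have := hV i 0; have := hV i 1; positivity
      linarith
    · exact h
  have hsp : |sval j c (fun i => Matrix.of (m i)) a| ≤ ε' := by
    have h1 := hd m n hm2 hn2 hmn
    rw [hn0, zero_sub, abs_neg] at h1
    exact h1
  have hprod : ∏ b, sval j c M b
      = (∏ b, wt j V b) * ∏ b, sval j c (fun i => Matrix.of (m i)) b := by
    rw [← Finset.prod_mul_distrib]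
    refine Finset.prod_congr rfl fun b _ => ?_
    rw [← sval_row, ← hMm]
  have hw : |∏ b, wt j V b| ≤ W := by
    rw [prod_wt, hW, Finset.abs_prod]
    refine Finset.prod_le_prod (fun i _ => abs_nonneg _) fun i _ => ?_
    rw [abs_pow]
    refine pow_le_pow_left₀ (abs_nonneg _) ?_ _
    have h1 : 0 < V i 0 * V i 1 := mul_pos (hV i 0) (hV i 1)
    rw [abs_of_pos h1]
    exact (hVM i).trans (le_abs_self _)
  have hs : |∏ b, sval j c (fun i => Matrix.of (m i)) b| ≤ ε' * K ^ D := by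
    rw [Finset.abs_prod, ← Finset.mul_prod_erase _ _ (Finset.mem_univ a)]
    refine mul_le_mul hsp ?_ (Finset.prod_nonneg fun _ _ => abs_nonneg _) hε'0.le
    refine (Finset.prod_le_prod (fun _ _ => abs_nonneg _)
      fun b _ => hK m hm2 b).trans ?_
    rw [Finset.prod_const]
    refine pow_le_pow_right₀ hK1 ?_
    rw [hD]
    exact Finset.card_le_univ _
  rw [hprod, abs_mul]
  calc |∏ b, wt j V b| * |∏ b, sval j c (fun i => Matrix.of (m i)) b|
      ≤ W * (ε' * K ^ D) := mul_le_mul hw hs (abs_nonneg _) hW0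
    _ = ε * (W / (2 * (W + 1))) := by rw [hε']; field_simp
    _ < ε * 1 := by
        refine mul_lt_mul_of_pos_left ?_ hε
        rw [div_lt_one (by positivity)]
        linarith
    _ = ε := mul_one _

/-- the transported integral vector -/
noncomputable def xv (j : ι → ℕ) (c : (∀ i, Fin (j i + 1)) → ℤ) (C : ι → Matrix (Fin 2) (Fin 2) ℤ)
    (a : ∀ i, Fin (j i + 1)) : ℤ := tval (fun i => symPow (j i) (C i)) c a

lemma xv_ne (j : ι → ℕ) (c : (∀ i, Fin (j i + 1)) → ℤ) (hc : c ≠ 0)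
    (C : ι → Matrix (Fin 2) (Fin 2) ℤ) (hC : ∀ i, (C i).det ≠ 0) : xv j c C ≠ 0 := by
  intro h0
  obtain ⟨a, ha⟩ : ∃ a, c a ≠ 0 := by
    by_contra hcon
    push Not at hcon
    exact hc (funext hcon)
  have h1 := tval_mul (fun i => symPow (j i) (C i).adjugate) (fun i => symPow (j i) (C i)) c a
  have h2 : tval (fun i => symPow (j i) (C i)) c = 0 := h0
  rw [h2, tval_scalar _ (fun i => (C i).det ^ j i) (fun i b q => symPow_adj (j i) (C i) b q)] at h1
  have h3 : tval (fun i => symPow (j i) (C i).adjugate) (0 : (∀ i, Fin (j i + 1)) → ℤ) a = 0 := by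
    simp [tval]
  rw [h3] at h1
  have h4 : (∏ i, (C i).det ^ j i) ≠ 0 :=
    Finset.prod_ne_zero_iff.2 fun i _ => pow_ne_zero _ (hC i)
  exact (mul_ne_zero h4 ha) h1.symm

lemma sval_xv (j : ι → ℕ) (c : (∀ i, Fin (j i + 1)) → ℤ) (C : ι → Matrix (Fin 2) (Fin 2) ℤ)
    (g : ι → Matrix (Fin 2) (Fin 2) ℝ) (a : ∀ i, Fin (j i + 1)) :
    sval j (fun q => (xv j c C q : ℝ)) g a
      = sval j (fun q => (c q : ℝ)) (fun i => g i * (C i).map (Int.cast : ℤ → ℝ)) a := by
  have h1 : (fun q => (xv j c C q : ℝ))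
      = tval (fun i => symPow (j i) ((C i).map (Int.cast : ℤ → ℝ))) (fun q => (c q : ℝ)) := by
    ext q
    unfold xv tval
    push_cast
    refine Finset.sum_congr rfl fun p _ => ?_
    congr 1
    refine Finset.prod_congr rfl fun i _ => ?_
    exact (symPow_map (Int.castRingHom ℝ) (j i) (C i) (q i) (p i)).symm
  unfold sval
  rw [h1, tval_mul]
  simp only [symPow_mul]

end Pool.Agent.U54.ST
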