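import Pool.Agent.U54.ST.Sym
import Pool.Agent.N759.CFr.Tensor

/-! # Local bases and limit systems -/

set_option autoImplicit false

open Matrix
open Pool.Agent.N759.CFr

namespace Pool.Agent.U54.ST

lemma entry (α : ℝ) (g : Matrix (Fin 2) (Fin 2) ℝ) (k : ℕ) (r : Fin 2) :
    (g * (CC α k).map (Int.cast : ℤ → ℝ)) r 0 = lu α (g r 0) (g r 1) k ∧
    (g * (CC α k).map (Int.cast : ℤ → ℝ)) r 1 = lv α (g r 0) (g r 1) k := by
  rw [← (loc_eq α (g r 0) (g r 1) k).1, ← (loc_eq α (g r 0) (g r 1) k).2]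
  simp [Matrix.mul_apply, Fin.sum_univ_two]

/-- the backward estimate -/
lemma backward {α : ℝ} (hα : Irrational α) (g : Matrix (Fin 2) (Fin 2) ℝ) (p m : ℕ) (y : ℝ)
    (hy : Irrational y) (hp : 2 * m + 1 < p) (h : ∀ r < 2 * m + 1, pq α (p - 1 - r) = pq y r) :
    |y * lu α (g 1 0) (g 1 1) p + lv α (g 1 0) (g 1 1) p|
      ≤ 2 * (1 / 2) ^ m * ((cst α g + 1) * BB α p) := by
  obtain ⟨k, rfl⟩ : ∃ k, p = (k + 1) + (2 * m + 1) := ⟨p - 1 - (2 * m + 1), by omega⟩
  have hrev := rev_eq hy α (g 1 0) (g 1 1) (2 * m + 1) 0 (k + 1) (fun r hr => by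
    rw [zero_add, ← h r hr]
    congr 1
    omega)
  rw [cq_zero, zero_add] at hrev
  have hpr : pr y (2 * m + 1) = pr y (2 * m) * cq y (2 * m + 1) := pr_succ _ _
  have hp2 := pow_le_pr hy m
  have hz1 : 1 < cq y (2 * m + 1) := one_lt_cq hy _
  have hv2 : |lv α (g 1 0) (g 1 1) (k + 1)| ≤ cst α g * BB α (k + 1) := abs_lv_le hα _ _ _
  have hu2 : |lu α (g 1 0) (g 1 1) (k + 1)| ≤ cst α g * BB α (k + 1) := abs_lu_le hα _ _ _
  have hBm : BB α (k + 1) ≤ BB α (k + 1 + (2 * m + 1)) := BB_mono hα (by omega)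
  have hB : 0 < BB α (k + 1) := BB_pos hα _
  have hC : 0 ≤ cst α g := cst_nonneg _ _
  set z := cq y (2 * m + 1)
  set P := pr y (2 * m)
  set s2 := lu α (g 1 0) (g 1 1) (k + 1)
  set t2 := lv α (g 1 0) (g 1 1) (k + 1)
  set s1 := lu α (g 1 0) (g 1 1) (k + 1 + (2 * m + 1))
  set t1 := lv α (g 1 0) (g 1 1) (k + 1 + (2 * m + 1))
  set D := cst α g
  set B := BB α (k + 1)
  set B' := BB α (k + 1 + (2 * m + 1))
  have hpow : (0 : ℝ) < 2 ^ m := by positivity
  have hP0 : 0 < P := lt_of_lt_of_le hpow hp2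
  have h1 : |y * s1 + t1| * (P * z) = |z * s2 + t2| := by
    rw [← hrev, hpr, abs_mul, abs_of_pos (mul_pos hP0 (by linarith))]
  have h2 : |z * s2 + t2| ≤ 2 * z * (D * B) := by
    have h3 := abs_add_le (z * s2) t2
    rw [abs_mul, abs_of_pos (by linarith : 0 < z)] at h3
    have h4 : 0 ≤ D * B := by positivity
    nlinarith
  have h5 : |y * s1 + t1| * P ≤ 2 * (D * B) := by
    have h6 : (|y * s1 + t1| * P) * z ≤ (2 * (D * B)) * z := by nlinarith
    exact le_of_mul_le_mul_right h6 (by linarith)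
  have h7 : |y * s1 + t1| * 2 ^ m ≤ 2 * ((D + 1) * B') := by
    have h8 : |y * s1 + t1| * 2 ^ m ≤ |y * s1 + t1| * P :=
      mul_le_mul_of_nonneg_left hp2 (abs_nonneg _)
    have h9 : D * B ≤ (D + 1) * B' := mul_le_mul (by linarith) hBm hB.le (by positivity)
    linarith
  have h10 : |y * s1 + t1| ≤ 2 * ((D + 1) * B') / 2 ^ m := by
    rw [le_div_iff₀ hpow]; exact h7
  refine h10.trans (le_of_eq ?_)
  rw [one_div, inv_pow]
  field_simp

/-- local data at the position `p` -/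
lemma local_data {α : ℝ} (hα : Irrational α) (g : Matrix (Fin 2) (Fin 2) ℝ)
    (hg : g 0 0 = α * g 0 1) (hg1 : g 0 1 ≠ 0) (p m : ℕ) (hp : 1 ≤ p) (x y : ℝ)
    (hx : Irrational x) (hy : Irrational y) (j : ℕ) (a : Fin (j + 1))
    (hax : (a : ℕ) < j → ∀ r < 2 * m + 1, pq α (p + r) = pq x r)
    (hay : 0 < (a : ℕ) → 2 * m + 1 < p ∧ ∀ r < 2 * m + 1, pq α (p - 1 - r) = pq y r) :
    ∃ (C : Matrix (Fin 2) (Fin 2) ℤ) (V : Fin 2 → ℝ) (N : Matrix (Fin 2) (Fin 2) ℝ) (κ : ℝ),
      C.det ≠ 0 ∧ (∀ r, 0 < V r) ∧ V 0 * V 1 ≤ 2 * |g 0 1| * (cst α g + 1) ∧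
      (∀ r s, |(g * C.map (Int.cast : ℤ → ℝ)) r s| ≤ V r) ∧
      (∀ r s, |N r s - (g * C.map (Int.cast : ℤ → ℝ)) r s| ≤ 2 * (1 / 2) ^ m * V r) ∧
      ∀ q, symPow j N a q = κ * symPow j !![x, 1; -1, y] a q := by
  obtain ⟨k, rfl⟩ : ∃ k, p = k + 1 := ⟨p - 1, by omega⟩
  have hx1 : 1 < cq α (k + 1) := one_lt_cq hα k
  have hu0 : lu α (g 0 0) (g 0 1) (k + 1) = cq α (k + 1) * lv α (g 0 0) (g 0 1) (k + 1) := by
    rw [hg]; exact lu_eq hα _ _
  have hk1 : |lv α (g 0 0) (g 0 1) (k + 1)| * (BB α (k + 1) * cq α (k + 1)) ≤ 2 * |g 0 1| := by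
    rw [hg]; exact key_le hα _ _
  have hv0 : lv α (g 0 0) (g 0 1) (k + 1) ≠ 0 := by
    rw [hg, lv_eq hα]
    exact div_ne_zero hg1 (pr_pos hα _).ne'
  have hv1 : |lv α (g 1 0) (g 1 1) (k + 1)| ≤ cst α g * BB α (k + 1) := abs_lv_le hα _ _ _
  have hu1 : |lu α (g 1 0) (g 1 1) (k + 1)| ≤ cst α g * BB α (k + 1) := abs_lu_le hα _ _ _
  have hB : 0 < BB α (k + 1) := BB_pos hα _
  have hC : 0 ≤ cst α g := cst_nonneg _ _
  have hbk : 0 < (a : ℕ) → |y * lu α (g 1 0) (g 1 1) (k + 1) + lv α (g 1 0) (g 1 1) (k + 1)|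
      ≤ 2 * (1 / 2) ^ m * ((cst α g + 1) * BB α (k + 1)) := fun h =>
    backward hα g (k + 1) m y hy (hay h).1 (hay h).2
  have hfw : (a : ℕ) < j → |x - cq α (k + 1)| ≤ (1 / 2) ^ m := fun h =>
    diff_le hx (irr_cq hα _) m fun r hr => by
      rw [← pq_add]
      exact (hax h r hr).symm
  set v0 := lv α (g 0 0) (g 0 1) (k + 1) with hv0d
  set u1 := lu α (g 1 0) (g 1 1) (k + 1) with hu1d
  set v1 := lv α (g 1 0) (g 1 1) (k + 1) with hv1d
  set xp := cq α (k + 1)
  set D := cst α g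
  set B := BB α (k + 1)
  have e00 := (entry α g (k + 1) 0).1
  have e01 := (entry α g (k + 1) 0).2
  have e10 := (entry α g (k + 1) 1).1
  have e11 := (entry α g (k + 1) 1).2
  rw [hu0] at e00
  rw [← hv0d] at e01
  rw [← hu1d] at e10
  rw [← hv1d] at e11
  have hpm : (0 : ℝ) < (1 / 2) ^ m := by positivity
  have hv0' : 0 < |v0| := abs_pos.2 hv0
  refine ⟨CC α (k + 1), ![|v0| * xp, (D + 1) * B],
    !![if (a : ℕ) < j then x * v0 else xp * v0, v0;
      u1, if 0 < (a : ℕ) then -(y * u1) else v1],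
    v0 ^ (j - (a : ℕ)) * (-u1) ^ (a : ℕ), det_CC_ne _ _, ?_, ?_, ?_, ?_, ?_⟩
  · intro r
    fin_cases r
    · simp only [Fin.zero_eta, Matrix.cons_val_zero]; positivity
    · simp only [Fin.mk_one, Matrix.cons_val_one, Matrix.cons_val_fin_one]; positivity
  · simp only [Matrix.cons_val_zero, Matrix.cons_val_one, Matrix.cons_val_fin_one]
    calc |v0| * xp * ((D + 1) * B) = (|v0| * (B * xp)) * (D + 1) := by ring
      _ ≤ (2 * |g 0 1|) * (D + 1) := mul_le_mul_of_nonneg_right hk1 (by positivity)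
  · intro r s
    fin_cases r <;> fin_cases s
    · simp only [Fin.zero_eta, Matrix.cons_val_zero]
      rw [e00, abs_mul, abs_of_pos (by linarith : 0 < xp), mul_comm]
    · simp only [Fin.zero_eta, Fin.mk_one, Matrix.cons_val_zero]
      rw [e01]
      nlinarith
    · simp only [Fin.zero_eta, Fin.mk_one, Matrix.cons_val_one, Matrix.cons_val_fin_one]
      rw [e10]
      nlinarith
    · simp only [Fin.mk_one, Matrix.cons_val_one, Matrix.cons_val_fin_one]
      rw [e11]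
      nlinarith
  · intro r s
    fin_cases r <;> fin_cases s
    · simp only [Fin.zero_eta, Matrix.cons_val_zero, Matrix.of_apply, Matrix.cons_val']
      rw [e00]
      split_ifs with ha
      · rw [← sub_mul, abs_mul]
        have h1 := hfw ha
        have h2 : |x - xp| * |v0| ≤ (1 / 2) ^ m * |v0| := mul_le_mul_of_nonneg_right h1 hv0'.le
        have h3 : (1 / 2 : ℝ) ^ m * |v0| ≤ 2 * (1 / 2) ^ m * (|v0| * xp) := by
          have h4 : |v0| ≤ |v0| * xp := by nlinarith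
          have h5 : (0 : ℝ) ≤ (1 / 2) ^ m * |v0| := by positivity
          nlinarith
        exact h2.trans h3
      · rw [sub_self, abs_zero]; positivity
    · simp only [Fin.zero_eta, Fin.mk_one, Matrix.cons_val_zero, Matrix.of_apply, Matrix.cons_val',
        Matrix.cons_val_one, Matrix.cons_val_fin_one]
      rw [e01, sub_self, abs_zero]
      positivity
    · simp only [Fin.zero_eta, Fin.mk_one, Matrix.cons_val_zero, Matrix.of_apply, Matrix.cons_val',
        Matrix.cons_val_one, Matrix.cons_val_fin_one]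
      rw [e10, sub_self, abs_zero]
      positivity
    · simp only [Fin.mk_one, Matrix.of_apply, Matrix.cons_val',
        Matrix.cons_val_one, Matrix.cons_val_fin_one]
      rw [e11]
      split_ifs with ha
      · have h1 := hbk ha
        have h2 : -(y * u1) - v1 = -(y * u1 + v1) := by ring
        rw [h2, abs_neg]
        exact h1
      · rw [sub_self, abs_zero]; positivity
  · intro q
    have hq : (q : ℕ) ≤ j := by omega
    by_cases h0 : (a : ℕ) = 0
    · rw [symPow_zero j _ a q h0, symPow_zero j _ a q h0, h0]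
      simp only [Matrix.of_apply, Matrix.cons_val', Matrix.cons_val_zero, Matrix.cons_val_one,
        Matrix.cons_val_fin_one, Nat.sub_zero, pow_zero, mul_one, one_pow]
      by_cases hj : 0 < j
      · rw [if_pos hj, mul_pow, mul_assoc, ← pow_add, Nat.sub_add_cancel hq]; ring
      · have hj0 : j = 0 := by omega
        subst hj0
        have : (q : ℕ) = 0 := by omega
        simp [this]
    · have h0' : 0 < (a : ℕ) := Nat.pos_of_ne_zero h0
      by_cases h1 : (a : ℕ) = j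
      · rw [symPow_last j _ a q h1, symPow_last j _ a q h1, h1]
        simp only [Matrix.of_apply, Matrix.cons_val', Matrix.cons_val_zero, Matrix.cons_val_one,
          Matrix.cons_val_fin_one, Nat.sub_self, pow_zero, one_mul]
        rw [if_pos (show 0 < j by omega)]
        have h2 : (-u1) ^ j = (-u1) ^ (j - (q : ℕ)) * (-u1) ^ (q : ℕ) := by
          rw [← pow_add, Nat.sub_add_cancel hq]
        have h3 : u1 ^ (j - (q : ℕ)) = (-u1) ^ (j - (q : ℕ)) * (-1) ^ (j - (q : ℕ)) := by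
          rw [← mul_pow]; ring_nf
        have h4 : (-(y * u1)) ^ (q : ℕ) = (-u1) ^ (q : ℕ) * y ^ (q : ℕ) := by
          rw [← mul_pow]; ring_nf
        rw [h2, h3, h4]; ring
      · have haj : (a : ℕ) < j := by omega
        rw [if_pos haj, if_pos h0', ← symPow_row]
        congr 2
        ext r s
        fin_cases r <;> fin_cases s <;> simp [Matrix.mul_apply, Fin.sum_univ_two] <;> ring

end Pool.Agent.U54.ST
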