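import Pool.Agent.U54.ST.Fac
import Pool.Agent.U54.ST.Local

/-! # The criterion -/

set_option autoImplicit false

open Matrix Finset
open Pool.Agent.N759.CFr

namespace Pool.Agent.U54.ST

variable {ι : Type} [Fintype ι] [DecidableEq ι]

/-! ### Swapping the rows -/

lemma symPow_swap (j : ℕ) (g : Matrix (Fin 2) (Fin 2) ℝ) (a q : Fin (j + 1)) :
    symPow j (!![0, 1; 1, 0] * g) a q = symPow j g (Fin.rev a) q := by
  rw [symPow_mul, Matrix.mul_apply]
  have h1 : ∀ r : Fin (j + 1), symPow j (!![0, 1; 1, 0] : Matrix (Fin 2) (Fin 2) ℝ) a r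
      = if r = Fin.rev a then 1 else 0 := by
    intro r
    rw [symPow_apply]
    simp only [Matrix.of_apply, Matrix.cons_val', Matrix.cons_val_zero, Matrix.cons_val_one, lin,
      Polynomial.C_0, Polynomial.C_1, zero_mul, add_zero, zero_add, Matrix.cons_val_fin_one, one_mul,
      one_pow, mul_one, Polynomial.coeff_X_pow]
    congr 1
    rw [eq_iff_iff, Fin.ext_iff, Fin.val_rev]
    omega
  simp only [h1, ite_mul, one_mul, zero_mul, Finset.sum_ite_eq', Finset.mem_univ, if_true]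

/-- the matrix with the row `r` first -/
noncomputable def swp (r : Fin 2) (g : Matrix (Fin 2) (Fin 2) ℝ) : Matrix (Fin 2) (Fin 2) ℝ :=
  if r = 0 then g else !![0, 1; 1, 0] * g

lemma swp_zero (r : Fin 2) (g : Matrix (Fin 2) (Fin 2) ℝ) (s : Fin 2) : swp r g 0 s = g r s := by
  unfold swp
  by_cases h : r = 0
  · rw [if_pos h, h]
  · have h1 : r = 1 := by omega
    rw [if_neg h, h1]
    simp [Matrix.mul_apply, Fin.sum_univ_two]

/-- the permutation of the indices -/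
def prm (j : ι → ℕ) (row : ι → Fin 2) : (∀ i, Fin (j i + 1)) ≃ (∀ i, Fin (j i + 1)) :=
  Equiv.piCongrRight fun i => if row i = 0 then Equiv.refl _ else Fin.revPerm

lemma sval_swp (j : ι → ℕ) (c : (∀ i, Fin (j i + 1)) → ℝ) (row : ι → Fin 2)
    (g : ι → Matrix (Fin 2) (Fin 2) ℝ) (a : ∀ i, Fin (j i + 1)) :
    sval j c (fun i => swp (row i) (g i)) a = sval j c g (prm j row a) := by
  unfold sval tval
  refine Finset.sum_congr rfl fun q _ => ?_
  congr 1
  refine Finset.prod_congr rfl fun i _ => ?_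
  simp only [prm, Equiv.piCongrRight_apply, Pi.map_apply]
  unfold swp
  by_cases h : row i = 0
  · rw [if_pos h, if_pos h]; rfl
  · rw [if_neg h, if_neg h, symPow_swap]; rfl

lemma prod_swp (j : ι → ℕ) (c : (∀ i, Fin (j i + 1)) → ℝ) (row : ι → Fin 2)
    (g : ι → Matrix (Fin 2) (Fin 2) ℝ) :
    ∏ a, sval j c (fun i => swp (row i) (g i)) a = ∏ a, sval j c g a := by
  simp only [sval_swp]
  exact Equiv.prod_comp (prm j row) (fun a => sval j c g a)

/-- the criterion without the last factor -/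
theorem core (j : ι → ℕ) (c : (∀ i, Fin (j i + 1)) → ℤ) (hc : c ≠ 0)
    (a : ∀ i, Fin (j i + 1)) (α : ι → ℝ) (hα : ∀ i, Irrational (α i))
    (g : ι → Matrix (Fin 2) (Fin 2) ℝ) (row : ι → Fin 2)
    (hg : ∀ i, g i (row i) 0 = α i * g i (row i) 1) (hg1 : ∀ i, g i (row i) 1 ≠ 0)
    (H : ∀ ℓ : ℕ, ∃ (x y : ι → ℝ) (p : ι → ℕ),
      (∀ i, Irrational (x i) ∧ Irrational (y i) ∧ 1 ≤ p i ∧
        ((a i : ℕ) < j i → ∀ r < ℓ, pq (α i) (p i + r) = pq (x i) r) ∧
        (0 < (a i : ℕ) → ℓ < p i ∧ ∀ r < ℓ, pq (α i) (p i - 1 - r) = pq (y i) r)) ∧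
      sval j (fun q => (c q : ℝ)) (fun i => !![x i, 1; -1, y i]) a = 0)
    (ε : ℝ) (hε : 0 < ε) :
    ∃ X : (∀ i, Fin (j i + 1)) → ℤ, X ≠ 0 ∧ |∏ b, sval j (fun q => (X q : ℝ)) g b| < ε := by
  obtain ⟨δ, hδ, hab⟩ := abstract j (fun q => (c q : ℝ)) a
    (fun i => 2 * |g i (row i) 1| * (cst (α i) (swp (row i) (g i)) + 1)) ε hε
  obtain ⟨m, hm⟩ := exists_pow_lt_of_lt_one (show 0 < δ / 2 by positivity)
    (show (1 / 2 : ℝ) < 1 by norm_num)
  obtain ⟨x, y, p, hxy, hz⟩ := H (2 * m + 1)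
  have hl := fun i => local_data (hα i) (swp (row i) (g i))
    (by rw [swp_zero, swp_zero]; exact hg i) (by rw [swp_zero]; exact hg1 i) (p i) m
    (hxy i).2.2.1 (x i) (y i) (hxy i).1 (hxy i).2.1 (j i) (a i) (hxy i).2.2.2.1 (hxy i).2.2.2.2
  choose C V N κ hC hV hVM hM hN hκ using hl
  refine ⟨xv j c C, xv_ne j c hc C hC, ?_⟩
  rw [← prod_swp j _ row g]
  have h1 : ∀ b, sval j (fun q => (xv j c C q : ℝ)) (fun i => swp (row i) (g i)) b
      = sval j (fun q => (c q : ℝ)) (fun i => swp (row i) (g i) * (C i).map (Int.cast : ℤ → ℝ)) b :=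
    fun b => sval_xv j c C _ b
  simp only [h1]
  refine hab V (fun i => swp (row i) (g i) * (C i).map (Int.cast : ℤ → ℝ)) N hV ?_ hM ?_ ?_
  · intro i
    have := hVM i
    rwa [swp_zero] at this
  · intro i r s
    refine (hN i r s).trans (mul_le_mul_of_nonneg_right ?_ (hV i r).le)
    linarith
  · have h2 : sval j (fun q => (c q : ℝ)) N a
        = (∏ i, κ i) * sval j (fun q => (c q : ℝ)) (fun i => !![x i, 1; -1, y i]) a := by
      unfold sval tval
      rw [Finset.mul_sum]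
      refine Finset.sum_congr rfl fun q _ => ?_
      rw [← mul_assoc, ← Finset.prod_mul_distrib]
      congr 1
      exact Finset.prod_congr rfl fun i _ => hκ i (q i)
    rw [h2, hz, mul_zero]

/-! ### The last factor -/

/-- The product of the linear forms given by the rows takes arbitrarily small values at nonzero
integer points. -/
def SmallValues {I J : Type} [Fintype I] [Fintype J] (F : Matrix I J ℝ) : Prop :=
  ∀ ε : ℝ, 0 < ε → ∃ x : J → ℤ, x ≠ 0 ∧ |∏ i, (F *ᵥ fun k => (x k : ℝ)) i| < ε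

lemma small_kron {I : Type} [Fintype I] [DecidableEq I] (F : Matrix I I ℝ)
    (h : SmallValues F) (n : ℕ) (hn : 0 < n) (G : Matrix (Fin n) (Fin n) ℝ) :
    SmallValues (Matrix.kroneckerMap (· * ·) F G) := by
  classical
  intro ε hε
  set c₀ : Fin n := ⟨0, hn⟩
  set D : ℕ := Fintype.card I with hD
  set K : ℝ := |∏ k, G k c₀| ^ D with hK
  have hK0 : 0 ≤ K := by positivity
  obtain ⟨X, hX, hX2⟩ := h (min 1 (ε / (K + 1))) (by positivity)
  refine ⟨fun p => if p.2 = c₀ then X p.1 else 0, fun h0 => hX ?_, ?_⟩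
  · ext a
    simpa using congrFun h0 (a, c₀)
  · set P : ℝ := ∏ i, (F *ᵥ fun k => (X k : ℝ)) i with hP
    have hval : ∀ i : I × Fin n, ((Matrix.kroneckerMap (· * ·) F G) *ᵥ
        fun j => ((if j.2 = c₀ then X j.1 else 0 : ℤ) : ℝ)) i
        = (F *ᵥ fun k => (X k : ℝ)) i.1 * G i.2 c₀ := by
      rintro ⟨i, k⟩
      simp only [mulVec, dotProduct, Fintype.sum_prod_type, kroneckerMap_apply]
      simp only [Int.cast_ite, Int.cast_zero, mul_ite, mul_zero, Finset.sum_ite_eq',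
        Finset.mem_univ, if_true]
      rw [Finset.sum_mul]
      exact Finset.sum_congr rfl fun q _ => by ring
    have hprod : ∏ i : I × Fin n, ((Matrix.kroneckerMap (· * ·) F G) *ᵥ
        fun j => ((if j.2 = c₀ then X j.1 else 0 : ℤ) : ℝ)) i
        = P ^ n * (∏ k, G k c₀) ^ D := by
      rw [Finset.prod_congr rfl fun i _ => hval i, Finset.prod_mul_distrib]
      congr 1
      · rw [Fintype.prod_prod_type]
        simp only [Finset.prod_const, Finset.card_univ, Fintype.card_fin]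
        rw [Finset.prod_pow]
      · rw [Fintype.prod_prod_type]
        have h9 : ∀ x : I, (∏ y : Fin n, G (x, y).2 c₀) = ∏ k, G k c₀ := fun _ => rfl
        rw [Finset.prod_congr rfl fun x _ => h9 x, Finset.prod_const, Finset.card_univ]
    rw [hprod, abs_mul, abs_pow, abs_pow, ← hK]
    have h1 : |P| < 1 := lt_of_lt_of_le hX2 (min_le_left _ _)
    have h2 : |P| < ε / (K + 1) := lt_of_lt_of_le hX2 (min_le_right _ _)
    have h3 : |P| ^ n ≤ |P| := pow_le_of_le_one (abs_nonneg _) h1.le (by omega)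
    rw [lt_div_iff₀ (by linarith)] at h2
    have h4 : |P| ^ n * K ≤ |P| * K := mul_le_mul_of_nonneg_right h3 hK0
    have h5 : 0 ≤ |P| := abs_nonneg _
    nlinarith

lemma small_reindex {I J : Type} [Fintype I] [Fintype J] (e : I ≃ J) (F : Matrix I I ℝ)
    (F' : Matrix J J ℝ) (hF : ∀ a b, F a b = F' (e a) (e b)) (h : SmallValues F) :
    SmallValues F' := by
  intro ε hε
  obtain ⟨x, hx, hx2⟩ := h ε hε
  refine ⟨fun k => x (e.symm k), fun h0 => hx ?_, ?_⟩
  · ext k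
    have := congrFun h0 (e k)
    simpa using this
  · have h1 : ∀ i, (F *ᵥ fun k => (x k : ℝ)) i = (F' *ᵥ fun k => (x (e.symm k) : ℝ)) (e i) := by
      intro i
      simp only [mulVec, dotProduct]
      rw [← Equiv.sum_comp e]
      refine Finset.sum_congr rfl fun k _ => ?_
      rw [hF, Equiv.symm_apply_apply]
    simp only [h1] at hx2
    rwa [Equiv.prod_comp e (fun i => (F' *ᵥ fun k => (x (e.symm k) : ℝ)) i)] at hx2

/-- the matrix of the tensor product of the symmetric powers -/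
noncomputable def tensorSym (j : ι → ℕ) (g : ι → Matrix (Fin 2) (Fin 2) ℝ) :
    Matrix (∀ i, Fin (j i + 1)) (∀ i, Fin (j i + 1)) ℝ :=
  Matrix.of fun a q => ∏ i, symPow (j i) (g i) (a i) (q i)

lemma tensorSym_mulVec (j : ι → ℕ) (g : ι → Matrix (Fin 2) (Fin 2) ℝ)
    (x : (∀ i, Fin (j i + 1)) → ℝ) (a : ∀ i, Fin (j i + 1)) :
    (tensorSym j g *ᵥ x) a = sval j x g a := rfl

/-- the criterion -/
theorem main (j : ι → ℕ) (c : (∀ i, Fin (j i + 1)) → ℤ) (hc : c ≠ 0)
    (a : ∀ i, Fin (j i + 1)) (α : ι → ℝ) (hα : ∀ i, Irrational (α i))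
    (g : ι → Matrix (Fin 2) (Fin 2) ℝ) (row : ι → Fin 2)
    (hg : ∀ i, g i (row i) 0 = α i * g i (row i) 1) (hg1 : ∀ i, g i (row i) 1 ≠ 0)
    (H : ∀ ℓ : ℕ, ∃ (x y : ι → ℝ) (p : ι → ℕ),
      (∀ i, Irrational (x i) ∧ Irrational (y i) ∧ 1 ≤ p i ∧
        ((a i : ℕ) < j i → ∀ r < ℓ, pq (α i) (p i + r) = pq (x i) r) ∧
        (0 < (a i : ℕ) → ℓ < p i ∧ ∀ r < ℓ, pq (α i) (p i - 1 - r) = pq (y i) r)) ∧
      (tensorSym j (fun i => !![x i, 1; -1, y i]) *ᵥ fun q => (c q : ℝ)) a = 0) :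
    SmallValues (tensorSym j g) := fun ε hε =>
  core j c hc a α hα g row hg hg1 H ε hε

end Pool.Agent.U54.ST
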