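import Mathlib

/-! # Symmetric powers of `2 × 2` matrices -/

set_option autoImplicit false

open Polynomial Matrix

namespace Pool.Agent.U54.ST

section ring

variable {R : Type*} [CommRing R]

/-- the polynomial `c + d T` -/
noncomputable def lin (c d : R) : R[X] := C c + C d * X

/-- the matrix of the map `P ↦ P((X, Y) g)` on binary forms of degree `j` -/
noncomputable def symPow (j : ℕ) (g : Matrix (Fin 2) (Fin 2) R) :
    Matrix (Fin (j + 1)) (Fin (j + 1)) R :=
  Matrix.of fun a q => (lin (g 0 0) (g 1 0) ^ (j - (q : ℕ)) * lin (g 0 1) (g 1 1) ^ (q : ℕ)).coeff a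

lemma symPow_apply (j : ℕ) (g : Matrix (Fin 2) (Fin 2) R) (a q : Fin (j + 1)) :
    symPow j g a q
      = (lin (g 0 0) (g 1 0) ^ (j - (q : ℕ)) * lin (g 0 1) (g 1 1) ^ (q : ℕ)).coeff a := rfl

/-- homogenised evaluation -/
noncomputable def hev (j : ℕ) (f A B : R[X]) : R[X] :=
  ∑ q ∈ Finset.range (j + 1), C (f.coeff q) * (A ^ (j - q) * B ^ q)

lemma hev_mul_C (j : ℕ) (f : R[X]) (hf : f.natDegree ≤ j) (c : R) (A B : R[X]) :
    hev (j + 1) (f * C c) A B = hev j f A B * (C c * A) := by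
  unfold hev
  rw [Finset.sum_range_succ, Finset.sum_mul]
  have h0 : (f * C c).coeff (j + 1) = 0 := by
    rw [coeff_mul_C, coeff_eq_zero_of_natDegree_lt (by omega), zero_mul]
  rw [h0, C_0, zero_mul, add_zero]
  refine Finset.sum_congr rfl fun q hq => ?_
  rw [Finset.mem_range] at hq
  rw [coeff_mul_C, C_mul, show j + 1 - q = (j - q) + 1 by omega, pow_succ]
  ring

lemma hev_mul_X (j : ℕ) (f : R[X]) (d : R) (A B : R[X]) :
    hev (j + 1) (f * (C d * X)) A B = hev j f A B * (C d * B) := by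
  unfold hev
  rw [Finset.sum_range_succ', Finset.sum_mul]
  have h0 : (f * (C d * X)).coeff 0 = 0 := by
    rw [← mul_assoc, coeff_zero_eq_eval_zero]; simp
  rw [h0, C_0, zero_mul, add_zero]
  refine Finset.sum_congr rfl fun q hq => ?_
  rw [show f * (C d * X) = f * C d * X by ring, coeff_mul_X, coeff_mul_C, C_mul,
    show j + 1 - (q + 1) = j - q by omega, pow_succ]
  ring

lemma hev_add (j : ℕ) (f f' A B : R[X]) : hev j (f + f') A B = hev j f A B + hev j f' A B := by
  unfold hev
  rw [← Finset.sum_add_distrib]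
  refine Finset.sum_congr rfl fun q _ => ?_
  rw [coeff_add, C_add]; ring

lemma hev_mul_lin (j : ℕ) (f : R[X]) (hf : f.natDegree ≤ j) (c d : R) (A B : R[X]) :
    hev (j + 1) (f * lin c d) A B = hev j f A B * (C c * A + C d * B) := by
  rw [lin, mul_add, hev_add, hev_mul_C j f hf, hev_mul_X, mul_add]

lemma natDegree_lin (c d : R) : (lin c d).natDegree ≤ 1 := by
  unfold lin
  compute_degree

lemma natDegree_lin_pow (c d : R) (n : ℕ) : (lin c d ^ n).natDegree ≤ n := by
  refine natDegree_pow_le.trans ?_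
  have := natDegree_lin c d
  nlinarith

lemma natDegree_linlin (c d c' d' : R) (m n : ℕ) :
    (lin c d ^ m * lin c' d' ^ n).natDegree ≤ m + n :=
  natDegree_mul_le.trans (add_le_add (natDegree_lin_pow _ _ _) (natDegree_lin_pow _ _ _))

lemma hev_pow (m : ℕ) (c d : R) (A B : R[X]) :
    hev m (lin c d ^ m) A B = (C c * A + C d * B) ^ m := by
  induction m with
  | zero => simp [hev]
  | succ m ih => rw [pow_succ, hev_mul_lin m _ (natDegree_lin_pow _ _ _), ih, pow_succ]

lemma hev_linlin (m n : ℕ) (c d c' d' : R) (A B : R[X]) :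
    hev (m + n) (lin c d ^ m * lin c' d' ^ n) A B
      = (C c * A + C d * B) ^ m * (C c' * A + C d' * B) ^ n := by
  induction n with
  | zero => simp [hev_pow]
  | succ n ih =>
    rw [← add_assoc, pow_succ, ← mul_assoc, hev_mul_lin _ _ (natDegree_linlin _ _ _ _ _ _), ih,
      pow_succ]
    ring

lemma symPow_mul (j : ℕ) (g h : Matrix (Fin 2) (Fin 2) R) :
    symPow j (g * h) = symPow j g * symPow j h := by
  ext a q
  have hq : (q : ℕ) ≤ j := by omega
  rw [Matrix.mul_apply]
  have h1 : ∀ r : Fin (j + 1), symPow j g a r * symPow j h r q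
      = (C ((lin (h 0 0) (h 1 0) ^ (j - (q : ℕ)) * lin (h 0 1) (h 1 1) ^ (q : ℕ)).coeff r)
        * (lin (g 0 0) (g 1 0) ^ (j - (r : ℕ)) * lin (g 0 1) (g 1 1) ^ (r : ℕ))).coeff a := by
    intro r
    rw [coeff_C_mul, symPow_apply, symPow_apply, mul_comm]
  rw [Finset.sum_congr rfl fun r _ => h1 r, ← Polynomial.finsetSum_coeff, Fin.sum_univ_eq_sum_range
    (fun r => C ((lin (h 0 0) (h 1 0) ^ (j - (q : ℕ)) * lin (h 0 1) (h 1 1) ^ (q : ℕ)).coeff r)
        * (lin (g 0 0) (g 1 0) ^ (j - (r : ℕ)) * lin (g 0 1) (g 1 1) ^ (r : ℕ))) (j + 1)]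
  have h2 := hev_linlin (j - (q : ℕ)) q (h 0 0) (h 1 0) (h 0 1) (h 1 1) (lin (g 0 0) (g 1 0))
    (lin (g 0 1) (g 1 1))
  rw [Nat.sub_add_cancel hq] at h2
  unfold hev at h2
  rw [h2, symPow_apply]
  congr 3
  · simp only [lin, Matrix.mul_apply, Fin.sum_univ_two, C_add, C_mul]; ring
  · simp only [lin, Matrix.mul_apply, Fin.sum_univ_two, C_add, C_mul]; ring

lemma symPow_diag (j : ℕ) (s t : R) :
    symPow j !![s, 0; 0, t] = Matrix.diagonal fun a : Fin (j + 1) => s ^ (j - (a : ℕ)) * t ^ (a : ℕ) := by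
  ext a q
  rw [symPow_apply]
  simp only [Matrix.of_apply, Matrix.cons_val', Matrix.cons_val_zero, Matrix.cons_val_one, lin, C_0,
    zero_mul, add_zero, zero_add, Matrix.cons_val_fin_one]
  rw [mul_pow, ← mul_assoc, ← C_pow, ← C_pow, ← C_mul, coeff_C_mul, coeff_X_pow, Matrix.diagonal_apply]
  by_cases h : a = q
  · subst h; simp
  · have h' : (a : ℕ) ≠ q := fun h' => h (Fin.ext h')
    simp [h, h']

lemma symPow_row (j : ℕ) (s t : R) (N : Matrix (Fin 2) (Fin 2) R) (a q : Fin (j + 1)) :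
    symPow j (!![s, 0; 0, t] * N) a q = s ^ (j - (a : ℕ)) * t ^ (a : ℕ) * symPow j N a q := by
  rw [symPow_mul, symPow_diag, Matrix.diagonal_mul]

lemma symPow_scalar (j : ℕ) (s : R) (a q : Fin (j + 1)) :
    symPow j (s • (1 : Matrix (Fin 2) (Fin 2) R)) a q = if a = q then s ^ j else 0 := by
  have h : s • (1 : Matrix (Fin 2) (Fin 2) R) = !![s, 0; 0, s] := by
    ext i k; fin_cases i <;> fin_cases k <;> simp
  rw [h, symPow_diag, Matrix.diagonal_apply]
  by_cases hh : a = q
  · simp only [hh, if_true]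
    rw [← pow_add]; congr 1; omega
  · simp [hh]

lemma symPow_adj (j : ℕ) (g : Matrix (Fin 2) (Fin 2) R) (a q : Fin (j + 1)) :
    (symPow j g.adjugate * symPow j g) a q = if a = q then g.det ^ j else 0 := by
  rw [← symPow_mul, Matrix.adjugate_mul, symPow_scalar]

/-- the first row -/
lemma symPow_zero (j : ℕ) (g : Matrix (Fin 2) (Fin 2) R) (a q : Fin (j + 1)) (ha : (a : ℕ) = 0) :
    symPow j g a q = g 0 0 ^ (j - (q : ℕ)) * g 0 1 ^ (q : ℕ) := by
  rw [symPow_apply, ha, coeff_zero_eq_eval_zero]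
  simp [lin]

/-- the last row -/
lemma symPow_last (j : ℕ) (g : Matrix (Fin 2) (Fin 2) R) (a q : Fin (j + 1)) (ha : (a : ℕ) = j) :
    symPow j g a q = g 1 0 ^ (j - (q : ℕ)) * g 1 1 ^ (q : ℕ) := by
  have hl : ∀ c d : R, (lin c d).coeff 1 = d := by intro c d; simp [lin, coeff_C]
  have h1 : ∀ (c d : R) (n : ℕ), (lin c d ^ n).coeff n = d ^ n := by
    intro c d n
    have := coeff_pow_of_natDegree_le (m := n) (natDegree_lin c d)
    rwa [mul_one, hl] at this
  have hq : (q : ℕ) ≤ j := by omega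
  rw [symPow_apply, ha]
  have h2 := coeff_mul_add_eq_of_natDegree_le (natDegree_lin_pow (g 0 0) (g 1 0) (j - (q : ℕ)))
    (natDegree_lin_pow (g 0 1) (g 1 1) q)
  rw [Nat.sub_add_cancel hq, h1, h1] at h2
  exact h2

lemma symPow_map {S : Type*} [CommRing S] (f : R →+* S) (j : ℕ) (g : Matrix (Fin 2) (Fin 2) R)
    (a q : Fin (j + 1)) : symPow j (g.map f) a q = f (symPow j g a q) := by
  rw [symPow_apply, symPow_apply, ← coeff_map]
  simp [lin]

end ring

/-! ### Continuity -/

section cont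

variable {T : Type*} [TopologicalSpace T]

/-- all coefficients are continuous -/
def CC' (F : T → ℝ[X]) : Prop := ∀ n, Continuous fun t => (F t).coeff n

lemma CC'.mul {F G : T → ℝ[X]} (hF : CC' F) (hG : CC' G) : CC' fun t => F t * G t := by
  intro n
  simp only [coeff_mul]
  exact continuous_finsetSum _ fun p _ => (hF p.1).mul (hG p.2)

lemma CC'.one : CC' fun _ : T => (1 : ℝ[X]) := fun _ => continuous_const

lemma CC'.pow {F : T → ℝ[X]} (hF : CC' F) (n : ℕ) : CC' fun t => F t ^ n := by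
  induction n with
  | zero => simpa using CC'.one
  | succ n ih => simp only [pow_succ]; exact ih.mul hF

lemma CC'.lin {c d : T → ℝ} (hc : Continuous c) (hd : Continuous d) :
    CC' fun t => lin (c t) (d t) := by
  intro n
  simp only [ST.lin, coeff_add, coeff_C_mul]
  refine Continuous.add ?_ (hd.mul continuous_const)
  rcases n with _ | n
  · simpa using hc
  · simp only [coeff_C_succ]; exact continuous_const

lemma continuous_symPow (j : ℕ) (a q : Fin (j + 1)) (m : T → Fin 2 → Fin 2 → ℝ)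
    (hm : Continuous m) : Continuous fun t => symPow j (Matrix.of (m t)) a q := by
  have he : ∀ r s, Continuous fun t => m t r s := fun r s =>
    (continuous_apply s).comp ((continuous_apply r).comp hm)
  simp only [symPow_apply, Matrix.of_apply]
  exact (((CC'.lin (he 0 0) (he 1 0)).pow _).mul ((CC'.lin (he 0 1) (he 1 1)).pow _)) a

end cont

end Pool.Agent.U54.ST
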